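import Pool.Agent.Q193.LT.Mod

/-!
# The finite generation conjecture of Bass and tripartite hypergraphs over `ℤ`

For a scheme `X` of finite type over `ℤ` let `K n X` be Quillen's group `K'_n(X)` of coherent sheaves
(zero for `n < 0`). The standard properties (Quillen) are collected in
`IsMod False K (Equiv.subRight 1) (Equiv.refl ℤ) (Equiv.refl ℤ)`: the localization sequence
`⋯ → K'_n(Z) → K'_n(X) → K'_n(X ∖ Z) → K'_{n-1}(Z) → ⋯`, homotopy invariance for affine bundles, and
`K'_n(X × 𝔾_m) = K'_n(X) ⊕ K'_{n-1}(X)`. The groups `K_n(ℤ)` are finitely generated (Quillen;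
hypothesis `point`). `Reg` is the property of being regular; it is only used that smooth schemes over `ℤ`
are regular.

For a finite set `H` of triples `(i, j, k)` (a tripartite hypergraph) let `X_H` be the smooth affine
scheme `∑_{(i, j, k) ∈ H} x_i y_j z_k = 1` over `ℤ`.

**Theorem.** The groups `K'_n(X)` are finitely generated for all regular schemes `X` of finite type over
`ℤ` (separated or not) and all `n` if and only if they are finitely generated for the schemes `X_H` of
all finite sets `H` of triples and all `n`.
-/

set_option autoImplicit false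

open CategoryTheory CategoryTheory.Limits AlgebraicGeometry Pool.Agent.Y116.UV Pool.Agent.Z125.UN
  Pool.Agent.Q193.LT

universe w

namespace Pool.Agent.Results.MP_e17fa799_al.HypergraphsOverZ

/-- **The conjecture of Bass and tripartite hypergraphs.** See the explanations above. -/
theorem result {K : ℤ → Sch ℤ → ModuleCat.{w} ℤ}
    (hK : IsMod False K (Equiv.subRight 1) (Equiv.refl ℤ) (Equiv.refl ℤ))
    (point : ∀ n, Module.Finite ℤ (K n (aff ℤ ℤ)))
    {Reg : Sch ℤ → Prop} (regular : ∀ X, FT False X → Smooth X.hom → Reg X) :
    (∀ X : Sch ℤ, FT False X → Reg X → ∀ n, Module.Finite ℤ (K n X)) ↔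
      ∀ (a b c : ℕ) (H : Finset (Fin a × Fin b × Fin c)), ∀ n,
        Module.Finite ℤ (K n (tripS ℤ H)) := by
  constructor
  · intro h a b c H
    refine h _ (ft_aff False) (regular _ (ft_aff False) ?_)
    change Smooth (Spec.map (CommRingCat.ofHom (algebraMap ℤ (Trip ℤ H))))
    rw [HasRingHomProperty.Spec_iff (P := @Smooth)]
    exact (RingHom.smooth_algebraMap).mpr (trip_smooth H)
  · intro h X hX _
    exact universal_frac (frac_of_surj fun r => ⟨r, rfl⟩) (bnd_mod hK serre_finite point).toUni h X hX

end Pool.Agent.Results.MP_e17fa799_al.HypergraphsOverZ
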