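import Pool.Agent.Q193.LT.Mod

/-!
# The finite generation conjecture of Bass for pencils of bilinear forms over rings of integers

Let `O` be an integral domain of finite type over `ℤ` and of dimension at most one, for example the ring
of integers of a number field. For a scheme `X` of finite type over `O` let `K n X` be Quillen's group
`K'_n(X)` of coherent sheaves (zero for `n < 0`). The standard properties (Quillen) are collected in
`IsMod False K (Equiv.subRight 1) (Equiv.refl ℤ) (Equiv.refl ℤ)`: the localization sequence
`⋯ → K'_n(Z) → K'_n(X) → K'_n(X ∖ Z) → K'_{n-1}(Z) → ⋯`, homotopy invariance for affine bundles, and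
`K'_n(X × 𝔾_m) = K'_n(X) ⊕ K'_{n-1}(X)`. The hypothesis `curves` is the known case of dimension at most
one (Quillen). `FG K X` says that all the groups `K'_n(X)` are finitely generated.

For a trilinear form `T(x, y, z) = ∑ t_{ijl} x_i y_j z_l` with coefficients in `O`, in any numbers of
variables `x_1, …, x_a`, `y_1, …, y_b`, `z_1, …, z_c`, the affine cubic hypersurface `T(x, y, z) = 1` is
smooth over `O`.

**Theorem.** (1) For all `N`, the groups `K'_i` of all closed subschemes of the affine space of dimension
`N` over `O` are finitely generated for all `i` if and only if they are finitely generated for the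
hypersurfaces `T(x, y, z) = 1` over `O` such that one of the three blocks of variables has at most `N + 1`
variables (the other two blocks are arbitrary).

(2) Unconditionally, all groups `K'_i` of the hypersurfaces `T(x, y, z) = 1` over `O` such that one of the
three blocks of variables has at most two variables are finitely generated.
-/

set_option autoImplicit false

open CategoryTheory CategoryTheory.Limits AlgebraicGeometry Pool.Agent.Y116.UV Pool.Agent.Z125.UN
  Pool.Agent.Q193.LT MvPolynomial

universe w

namespace Pool.Agent.Results.MP_e17fa799_al.PencilsOverIntegers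

variable {O : Type} [CommRing O]

/-- All groups `K'_n(X)` are finitely generated. -/
def FG (K : ℤ → Sch O → ModuleCat.{w} ℤ) (X : Sch O) : Prop := ∀ n, Module.Finite ℤ (K n X)

/-- All groups `K'_n` are finitely generated for all hypersurfaces `T = 1` with a block of at most `m`
variables. -/
def Forms (K : ℤ → Sch O → ModuleCat.{w} ℤ) (m : ℕ) : Prop :=
  ∀ (a b c : ℕ) (T : Fin a → Fin b → Fin c → O), (a ≤ m ∨ b ≤ m ∨ c ≤ m) → FG K (hypS T)

lemma dim_quot [IsDomain O] [IsNoetherianRing O] (hO : ringKrullDim O ≤ 1)
    (I : Ideal (MvPolynomial (Fin 1) O)) (hI : I ≠ ⊥) :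
    ringKrullDim (MvPolynomial (Fin 1) O ⧸ I) ≤ 1 := by
  obtain ⟨r, hr, hr0⟩ := Submodule.exists_mem_ne_zero_of_ne_bot hI
  have h1 : ringKrullDim (MvPolynomial (Fin 1) O) = ringKrullDim O + 1 := by
    rw [MvPolynomial.ringKrullDim_of_isNoetherianRing]
    simp
  have h2 := ringKrullDim_quotient_succ_le_of_nonZeroDivisor (mem_nonZeroDivisors_of_ne_zero hr0)
  have h3 : ringKrullDim (MvPolynomial (Fin 1) O ⧸ I) ≤
      ringKrullDim (MvPolynomial (Fin 1) O ⧸ Ideal.span {r}) :=
    ringKrullDim_le_of_surjective
      (Ideal.Quotient.factor ((Ideal.span_singleton_le_iff_mem I).mpr hr))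
      (Ideal.Quotient.factor_surjective _)
  have h4 : ringKrullDim (MvPolynomial (Fin 1) O) ≤ 1 + 1 := by
    rw [h1]
    gcongr
  have h5 : ringKrullDim (MvPolynomial (Fin 1) O ⧸ Ideal.span {r}) + 1 ≤ 1 + 1 := h2.trans h4
  exact h3.trans (ENat.WithBot.add_le_add_one_right_iff.mp h5)

/-- **The conjecture of Bass and pencils of bilinear forms over rings of integers.** See the explanations
above. -/
theorem result [IsDomain O] [Algebra.FiniteType ℤ O] (hO : ringKrullDim O ≤ 1)
    {K : ℤ → Sch O → ModuleCat.{w} ℤ}
    (hK : IsMod False K (Equiv.subRight 1) (Equiv.refl ℤ) (Equiv.refl ℤ))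
    (curves : ∀ X : Sch O, FT False X → topologicalKrullDim X.left ≤ 1 → FG K X) :
    (∀ N : ℕ, (∀ I : Ideal (MvPolynomial (Fin N) O), FG K (aff O (MvPolynomial (Fin N) O ⧸ I))) ↔
      Forms K (N + 1)) ∧ Forms K 2 := by
  have hn : IsNoetherianRing O := Algebra.FiniteType.isNoetherianRing ℤ O
  have h0 : FG K (aff O O) := curves _ (ft_aff False) (by
    change topologicalKrullDim (PrimeSpectrum O) ≤ 1
    rw [PrimeSpectrum.topologicalKrullDim_eq_ringKrullDim]
    exact hO)
  have h1 : Bnd False (FG K) := bnd_mod hK serre_finite h0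
  have h2 : ∀ N : ℕ, (∀ I : Ideal (MvPolynomial (Fin N) O),
      FG K (aff O (MvPolynomial (Fin N) O ⧸ I))) ↔ Forms K (N + 1) := by
    intro N
    constructor
    · intro h a b c T hm
      exact of_block h1 (fun a b c' hc' T => to_tri h1 h a b c' hc' T) T hm
    · intro h
      exact (graded h1 N).mpr fun a b T => h a b (N + 1) T (Or.inr (Or.inr le_rfl))
  refine ⟨h2, (h2 1).mp fun I => ?_⟩
  by_cases hI : I = ⊥
  · subst hI
    exact iso_alg h1.toUni (AlgEquiv.quotientBot O (MvPolynomial (Fin 1) O)).symm (h1.space 1)
  · refine curves _ (ft_aff False) ?_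
    change topologicalKrullDim (PrimeSpectrum (MvPolynomial (Fin 1) O ⧸ I)) ≤ 1
    rw [PrimeSpectrum.topologicalKrullDim_eq_ringKrullDim]
    exact dim_quot hO I hI

end Pool.Agent.Results.MP_e17fa799_al.PencilsOverIntegers
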