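import Pool.Agent.Q193.LT.Mod

/-!
# The finite generation conjecture of Bass over finite fields, dimension by dimension

Let `k` be a finite field. For a separated scheme `X` of finite type over `k` let `K n X` be Quillen's
group `K'_n(X)` of coherent sheaves (zero for `n < 0`). The standard properties (Quillen) are collected in
`IsMod True K (Equiv.subRight 1) (Equiv.refl ℤ) (Equiv.refl ℤ)`: the localization sequence
`⋯ → K'_n(Z) → K'_n(X) → K'_n(X ∖ Z) → K'_{n-1}(Z) → ⋯`, homotopy invariance for affine bundles, and
`K'_n(X × 𝔾_m) = K'_n(X) ⊕ K'_{n-1}(X)`. The hypothesis `curves` is the known case of dimension at most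
one (Quillen, Harder). `FG K X` says that all the groups `K'_n(X)` are finitely generated.

For a trilinear form `T(x, y, z) = ∑ t_{ijl} x_i y_j z_l` with coefficients in `k`, in any numbers of
variables `x_1, …, x_a`, `y_1, …, y_b`, `z_1, …, z_c`, the affine cubic hypersurface `T(x, y, z) = 1` is
smooth over `k`.

**Theorem.** (1) For all `n`, the groups `K'_i(X)` are finitely generated for all `i` and all smooth
separated schemes `X` of finite type and dimension at most `n` over `k` if and only if they are finitely
generated for the hypersurfaces `T(x, y, z) = 1` such that one of the three blocks of variables has at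
most `n + 2` variables (the other two blocks are arbitrary).

(2) Unconditionally, all groups `K'_i` of the hypersurfaces `T(x, y, z) = 1` such that one of the three
blocks of variables has at most three variables are finitely generated.
-/

set_option autoImplicit false

open CategoryTheory CategoryTheory.Limits AlgebraicGeometry Pool.Agent.Y116.UV Pool.Agent.Z125.UN
  Pool.Agent.Q193.LT

universe w

namespace Pool.Agent.Results.MP_e17fa799_al.ThreeVariables

variable {k : Type} [Field k]

/-- All groups `K'_n(X)` are finitely generated. -/
def FG (K : ℤ → Sch k → ModuleCat.{w} ℤ) (X : Sch k) : Prop := ∀ n, Module.Finite ℤ (K n X)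

/-- All groups `K'_n` are finitely generated for all hypersurfaces `T = 1` with a block of at most `m`
variables. -/
def Forms (K : ℤ → Sch k → ModuleCat.{w} ℤ) (m : ℕ) : Prop :=
  ∀ (a b c : ℕ) (T : Fin a → Fin b → Fin c → k), (a ≤ m ∨ b ≤ m ∨ c ≤ m) → FG K (hypS T)

/-- **The conjecture of Bass over finite fields.** See the explanations above. -/
theorem result [Finite k] {K : ℤ → Sch k → ModuleCat.{w} ℤ}
    (hK : IsMod True K (Equiv.subRight 1) (Equiv.refl ℤ) (Equiv.refl ℤ))
    (curves : ∀ X : Sch k, FT True X → topologicalKrullDim X.left ≤ (1 : ℕ) → FG K X) :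
    (∀ n : ℕ, (∀ X : Sch k, FT True X → Smooth X.hom → topologicalKrullDim X.left ≤ n → FG K X) ↔
      Forms K (n + 2)) ∧ Forms K 3 := by
  have h0 : FG K (aff k k) := curves _ (ft_aff True) (by
    rw [topDim_aff, ringKrullDim_eq_zero_of_field]
    exact_mod_cast Nat.zero_le 1)
  have h1 : Bnd True (FG K) := bnd_mod hK serre_finite h0
  exact ⟨fun n => smooth_iff h1 n, (dim_iff h1 1).mp curves⟩

end Pool.Agent.Results.MP_e17fa799_al.ThreeVariables
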